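import Pool.Agent.helper53.ORT.Spec

set_option autoImplicit false

namespace Pool.Agent.ORT

open Module Pool.Agent.GS

theorem E7_dt {F V ι : Type} [Field F] [AddCommGroup V] [Module F V] [Fintype ι]
    [DecidableEq ι] (b : LinearMap.BilinForm F V) (hb : Sym b) (β₀ : Basis ι F V) :
    dt b β₀ ≠ 0 := by
  intro h
  obtain ⟨v, hv, hm⟩ := Matrix.exists_vecMul_eq_zero_iff.mpr h
  apply hv
  have h1 : (∑ i, v i • β₀ i) = 0 := by
    apply hb.nd
    intro y
    have h2 : ∀ j, b (∑ i, v i • β₀ i) (β₀ j) = 0 := by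
      intro j
      have h3 : (Matrix.vecMul v (Matrix.of fun i j => b (β₀ i) (β₀ j))) j = 0 := by rw [hm]; rfl
      rw [map_sum, LinearMap.sum_apply]
      rw [← h3]
      unfold Matrix.vecMul dotProduct
      refine Finset.sum_congr rfl fun i _ => ?_
      rw [map_smul, LinearMap.smul_apply, smul_eq_mul]
      rfl
    have h4 : b (∑ i, v i • β₀ i) = 0 := β₀.ext h2
    rw [h4]; rfl
  funext i
  have h5 := Fintype.linearIndependent_iff.1 β₀.linearIndependent v h1 i
  exact h5

theorem E7_card {F : Type} [Field F] [Finite F] (hF : ringChar F ≠ 2) :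
    Nat.card F = 3 ∨ 5 ≤ Nat.card F := by
  haveI := Fintype.ofFinite F
  have h1 : Fintype.card F % 2 = 1 := FiniteField.odd_card_of_char_ne_two hF
  have h2 : 1 < Fintype.card F := Fintype.one_lt_card
  rw [Nat.card_eq_fintype_card]
  omega

theorem E7 (un : GS.UN_stmt) (q5 : GS.Q5_stmt) (q3 : GS.Q3_stmt) (hw : GS.HW_stmt)
    (bf : GS.BF_stmt) : E7_stmt := by
  intro F K ι _ _ _ _ _ _ _ _ β₀ hF hm β σ hβ hσ h3
  have hβ' : β⁻¹ ≠ 0 := inv_ne_zero hβ
  have hS : Sym (GS.bf F K β⁻¹) := bf.1 β⁻¹ hβ'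
  have hδ : dt (GS.bf F K β⁻¹) β₀ ≠ 0 := E7_dt _ hS β₀
  set δ := dt (GS.bf F K β⁻¹) β₀ with hδd
  -- the first element
  have h1 : ∃ c₁ : K, Algebra.trace F K (β * c₁ ^ 2) = δ ∧
      (finrank F K = 3 → Algebra.trace F K (β * σ ^ 2 * c₁ ^ 2) ≠ 0) := by
    by_cases hm3 : finrank F K = 3
    · rcases E7_card hF with hc | hc
      · have hι : Fintype.card ι = 3 := by
          rw [← hm3]; exact (Module.finrank_eq_card_basis β₀).symm
        let e : ι ≃ Fin 3 := Fintype.equivFinOfCardEq hι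
        have hdt : dt (GS.bf F K β⁻¹) (β₀.reindex e) = δ := by
          rw [hδd]
          unfold dt
          rw [← Matrix.det_submatrix_equiv_self e.symm]
          congr 1
          ext i j
          simp
        obtain ⟨u, hu1, hu2⟩ := q3 (β₀.reindex e) hF β⁻¹ (σ ^ 2) δ hβ' hδ
          (by rw [hdt]; exact ⟨δ, rfl⟩) (h3 hc hm3)
        refine ⟨u, ?_, fun _ => ?_⟩
        · rw [GS.bf_apply, inv_inv] at hu1
          rw [← hu1]
          congr 1
          ring
        · rw [inv_inv] at hu2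
          intro h
          apply hu2
          rw [← h]
          congr 1
          ring
      · obtain ⟨u, hu1, hu2⟩ := q5 hF hc hm3 β⁻¹ (σ ^ 2) δ hβ' (pow_ne_zero 2 hσ) hδ
        refine ⟨u, ?_, fun _ => ?_⟩
        · rw [GS.bf_apply, inv_inv] at hu1
          rw [← hu1]
          congr 1
          ring
        · rw [inv_inv] at hu2
          intro h
          apply hu2
          rw [← h]
          congr 1
          ring
    · obtain ⟨w, hw1⟩ := un (GS.bf F K β⁻¹) hF hS (by omega) δ hδ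
      refine ⟨w, ?_, fun h => absurd h hm3⟩
      rw [GS.bf_apply, inv_inv] at hw1
      rw [← hw1]
      congr 1
      ring
  obtain ⟨c₁, hc1, hc1'⟩ := h1
  have hc0 : c₁ ≠ 0 := by
    rintro rfl
    apply hδ
    rw [← hc1]
    simp
  obtain ⟨w, hw1, hw2⟩ := hw β₀ hF hm β⁻¹ (β * σ * c₁) δ hβ'
    (mul_ne_zero (mul_ne_zero hβ hσ) hc0) hδ (by
      intro h3' h0
      exfalso
      apply hc1' h3'
      rw [← h0]
      congr 1
      field_simp)
  refine ⟨δ, c₁, w, hδ, ⟨δ, rfl⟩, hc1, ?_, ?_⟩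
  · rw [GS.bf_apply, inv_inv] at hw2
    rw [← hw2]
    congr 1
    ring
  · exact hw1

end Pool.Agent.ORT
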